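import Pool.Agent.R811.Cross.Closed
import Pool.Agent.V8H81.Rnd.GridFinal

/-!
# The Jones polynomials of random grid knots

Diagrams (starting library `Pool.Agent.H891R2.Jones.Diagram`): `Diagram P` (oriented link diagrams with marked
points `P`), `Diagram.IsClosed` (the pieces fit together to closed oriented curves), `Diagram.fPoly` (the
normalised bracket `(-A^{-3})^{w(D)} ⟨D⟩`, a Laurent polynomial in `A = T 1`).
`Pool.Agent.TH561.PK.Defs` (starting library): `IsKnot D` (all marked points are on one curve).
`Pool.Agent.R811.Cross.Defs` (starting library): `Shadow N` (the Gauss code of an oriented closed curve with `N`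
double points; the two strands at each double point and from which side the second one crosses the first one).

A grid diagram (arc presentation) of size `n` of a knot is given by a permutation `c` of the columns and a
permutation `r` of the rows: for `t = 0, …, n - 1` (cyclically) the knot runs along the row `r t` from the
column `c (t - 1)` to the column `c t` and then along the column `c t` from the row `r t` to the row
`r (t + 1)`; the columns run over the rows.  Every knot has grid diagrams.  The random grid diagram of size `n` is the
one of a uniformly distributed pair `(c, r)`; the pairs `(c, r)` are the elements of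
`Equiv.Perm (Fin n) × Equiv.Perm (Fin n)`.

`Pool.Agent.V8H81.Rnd.Grid`: `(grid c).lift r` is the diagram of this knot seen from above.  (The columns are
vertical in space and are seen as points.  The row number `t`, from the column `c (t - 1)` to the column `c t`
at the height `r t`, is bent backwards: it runs from the column `c (t - 1)` straight backwards to the
depth `t`, then sideways at the depth `t`, then straight forwards to the column `c t`.  Of two different
strands `a < b` the sideways part of `a` is crossed by the legs of `b` whose columns are strictly between the columns
of `a`, and where they cross the strand with the larger height `r` is the upper one.)  In detail: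

* `IsDP c (a, b, e)`: the double points; `a < b` and the column `col c b e` of the leg `e` (`false`: first,
  `true`: second) of the strand `b` lies strictly between the columns `c (a - 1)` and `c a`;
* `str`, `part`, `pos`, `key`: the strand of a passage through a double point, the part of this strand (first
  leg, sideways part, second leg), the position on this part, and a number which orders all passages along the knot;
* `drawing c`, `grid c` (`Pool.Agent.V8H81.Rnd.Draw`, `Layered`): the resulting Gauss code together with the
  strand of each passage;
* `Layered.lift L r` (`Pool.Agent.V8H81.Rnd.Layered`): the diagram with the shadow `L` in which at every double point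
  the strand with the larger height `r` runs over the other one.

Proof.  (1) For four consecutive heights `4 k, …, 4 k + 3` carried by the strands `t 0, t 1, t 2, t 3` we may
exchange the heights of `t 0, t 1` and the heights of `t 2, t 3`.  If `t 0` and `t 1` cross exactly once, and
`t 2` and `t 3` cross exactly once, and the pairs are linked (`t 0 < t 2 < t 1 < t 3` up to order), these exchanges
change two interlaced crossings.  So the heights fall into cubes of crossing changes, and on a cube the results on
crossing changes for one shadow (`Pool.Agent.R811.Cross`) bound the number of the diagrams with a given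
second moment (second derivative at `A = 1`) by means of the number `ν` of the good blocks.  (2) The second moment method
for random heights: `ν` is large for almost all heights, if there are many quadruples of strands as in (1)
(`Pool.Agent.V8H81.Rnd.General`).  (3) The second moment method for random columns (`Pool.Agent.V8H81.Rnd.GridCount`):
two strands cross exactly once if their columns are linked, which has the probability `1 / 3`, and so almost all `c`
have at least `n ^ 4 / 72` such quadruples.
-/

set_option autoImplicit false

namespace Pool.Agent.Results.MP_42db45_gt.RandomGridKnots

open Finset LaurentPolynomial Pool.Agent.H891R2.Jones Pool.Agent.V8H81.Rnd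

open Classical in
/-- The `(n!) ^ 2` diagrams `(grid c).lift r` of size `n` are closed oriented diagrams of knots (they are the
grid diagrams with the columns `c` and the rows `r`, seen from above).  For every Laurent polynomial `g`, for
instance for `g = 1`, the proportion of the pairs `(c, r)` for which the `f`-polynomial is equal to `g`, or only
agrees with `g` up to terms of order `3` at `A = 1`, is at most `25 / n ^ (1/4)`. -/
theorem result (n : ℕ) :
    (∀ c r : Equiv.Perm (Fin n), ((grid c).lift r).IsClosed ∧ Pool.Agent.TH561.PK.IsKnot ((grid c).lift r)) ∧
    ∀ g : ℤ[T;T⁻¹],
      n * #{x : Equiv.Perm (Fin n) × Equiv.Perm (Fin n) |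
        (T 1 - 1 : ℤ[T;T⁻¹]) ^ 3 ∣ ((grid x.1).lift x.2).fPoly - g} ^ 4 ≤ 25 ^ 4 * (n.factorial ^ 2) ^ 4 ∧
      n * #{x : Equiv.Perm (Fin n) × Equiv.Perm (Fin n) |
        ((grid x.1).lift x.2).fPoly = g} ^ 4 ≤ 25 ^ 4 * (n.factorial ^ 2) ^ 4 := by
  refine ⟨fun c r => ?_, fun g => ?_⟩
  · rw [Layered.lift_eq]
    exact ⟨by convert Pool.Agent.R811.Cross.isClosed _ _, Pool.Agent.R811.Cross.isKnot _ _⟩
  · have h : n * #{x : Equiv.Perm (Fin n) × Equiv.Perm (Fin n) |
        (T 1 - 1 : ℤ[T;T⁻¹]) ^ 3 ∣ ((grid x.1).lift x.2).fPoly - g} ^ 4 ≤ 25 ^ 4 * (n.factorial ^ 2) ^ 4 :=
      (grid_count n g).trans (le_of_eq (by ring))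
    refine ⟨h, ?_⟩
    refine (Nat.mul_le_mul_left n (Nat.pow_le_pow_left (Finset.card_le_card ?_) 4)).trans h
    intro x hx
    rw [Finset.mem_filter] at hx ⊢
    exact ⟨hx.1, by rw [hx.2, sub_self]; exact dvd_zero _⟩

end Pool.Agent.Results.MP_42db45_gt.RandomGridKnots
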