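import Pool.Agent.R811.Cross.Closed
import Pool.Agent.V8H81.Rnd.GridFinal
import Pool.Agent.V8H81.Rnd.Poly

/-!
# Random heights over a closed polygon

Diagrams (starting library `Pool.Agent.H891R2.Jones.Diagram`): `Diagram P` (oriented link diagrams with marked
points `P`), `Diagram.IsClosed` (the pieces fit together to closed oriented curves), `Diagram.fPoly` (the
normalised bracket `(-A^{-3})^{w(D)} ⟨D⟩`, a Laurent polynomial in `A = T 1`).
`Pool.Agent.TH561.PK.Defs` (starting library): `IsKnot D` (all marked points are on one curve).
`Pool.Agent.R811.Cross.Defs` (starting library): `Shadow N` (the Gauss code of an oriented closed curve with `N`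
double points: the passages through the double points are numbered `0, …, 2 N - 1` along the curve, `p i` and `q i`
are the two passages through the double point `i`, and `left i` tells from which side the second one crosses the
first one).

`Pool.Agent.V8H81.Rnd.Layered`:

* `Layered n N`: the Gauss code of a closed curve with `N` double points which consists of `n` successive strands
  without self-crossings (`strand e` is the strand of the passage `e`); for instance a closed polygon in the plane
  in general position with its `n` edges;
* `L.lift h`, for a permutation `h` of `0, …, n - 1`: the diagram with this shadow in which at every double point the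
  strand with the larger height `h` runs over the other one.  This is the diagram of the knot which one obtains if
  the strand `a` runs in the horizontal plane at the height `h a` and successive strands are connected by vertical
  segments.

`Pool.Agent.V8H81.Rnd.Poly`: `L.pairs`: the pairs `a < b` of strands which cross exactly once.

Petal diagrams with `n = 2 m + 1` petals (Adams et al.): `n` segments through one point at the heights
`h 0, …, h (n - 1)`; as a diagram with double points this is the star polygon `{n / m}` with edges at the heights `h`.
`grid (star m)` (`Pool.Agent.V8H81.Rnd.Grid`, `Pool.Agent.V8H81.Rnd.GridFinal`) is a drawing of this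
curve in a half plane whose boundary line contains the vertices: the strand `t` joins the points `(t - 1) m` and `t m`
modulo `n` of this line (it runs to the depth `t`, sideways, and back to the line), so that every two strands
which have no common endpoint cross exactly once, and the others do not cross.  (In detail: `IsDP`, `str`, `part`,
`pos`, `key`: the double points, the strand of a passage, its part and position on the strand, the order of the
passages.)

Proof.  (1) For four consecutive heights `4 k, …, 4 k + 3` carried by the strands `t 0, t 1, t 2, t 3` we may
exchange the heights of `t 0, t 1` and the heights of `t 2, t 3`.  If `t 0` and `t 1` cross exactly once, and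
`t 2` and `t 3` cross exactly once, and the pairs are linked (`t 0 < t 2 < t 1 < t 3` up to order), these exchanges
change two interlaced crossings.  So the heights fall into cubes of crossing changes, and on a cube the results on
crossing changes for one shadow (`Pool.Agent.R811.Cross`) bound the number of the diagrams with a given
second moment (second derivative at `A = 1`) by means of the number `ν` of the good blocks.  (2) The second moment method
for random heights: `ν` is large for almost all heights, if there are many quadruples of strands as in (1)
(`Pool.Agent.V8H81.Rnd.General`).  (3) The pairs of strands which cross exactly once are chords of `n` points on a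
circle; a crossing lemma for such chords gives at least `M ^ 3 / (27 n ^ 2)` ordered quadruples as in (1)
(`Pool.Agent.V8H81.Rnd.Chords`).
-/

set_option autoImplicit false

namespace Pool.Agent.Results.MP_42db45_gt.RandomHeights

open Finset LaurentPolynomial Pool.Agent.H891R2.Jones Pool.Agent.V8H81.Rnd

open Classical in
/-- Let `L` be a closed curve with `N` double points which consists of `n` strands without self-crossings, and let
`M` be the number of the pairs of strands which cross exactly once; if any two strands cross at most once (for
instance, if `L` is a closed polygon with `n` edges), then `M = N`.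

The `n!` diagrams `L.lift h` in which the strands run at the heights `h` are closed oriented diagrams of knots. For
every Laurent polynomial `g`, for instance for `g = 1`, the proportion of the `h` for which the `f`-polynomial is
equal to `g`, or only agrees with `g` up to terms of order `3` at `A = 1`, is at most
`(84375 n ^ 5 / M ^ 3) ^ (1/4)`.

For the petal diagrams with `n = 2 m + 1` petals this proportion is at most `(12500 / n) ^ (1/4)`. -/
theorem result :
    (∀ (n N : ℕ) (L : Layered n N),
      (Function.Injective (fun i => s(L.strand (L.p i), L.strand (L.q i))) → L.pairs.card = N) ∧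
      (∀ h : Equiv.Perm (Fin n), (L.lift h).IsClosed ∧ Pool.Agent.TH561.PK.IsKnot (L.lift h)) ∧
      ∀ g : ℤ[T;T⁻¹],
        L.pairs.card ^ 3 * #{h : Equiv.Perm (Fin n) | (T 1 - 1 : ℤ[T;T⁻¹]) ^ 3 ∣ (L.lift h).fPoly - g} ^ 4 ≤
          84375 * n ^ 5 * n.factorial ^ 4 ∧
        L.pairs.card ^ 3 * #{h : Equiv.Perm (Fin n) | (L.lift h).fPoly = g} ^ 4 ≤
          84375 * n ^ 5 * n.factorial ^ 4) ∧
    ∀ (m : ℕ) (g : ℤ[T;T⁻¹]),
      (2 * m + 1) * #{h : Equiv.Perm (Fin (2 * m + 1)) |
        (T 1 - 1 : ℤ[T;T⁻¹]) ^ 3 ∣ ((grid (star m)).lift h).fPoly - g} ^ 4 ≤
          12500 * (2 * m + 1).factorial ^ 4 ∧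
      (2 * m + 1) * #{h : Equiv.Perm (Fin (2 * m + 1)) | ((grid (star m)).lift h).fPoly = g} ^ 4 ≤
          12500 * (2 * m + 1).factorial ^ 4 := by
  have hsub : ∀ (n N : ℕ) (L : Layered n N) (g : ℤ[T;T⁻¹]),
      #{h : Equiv.Perm (Fin n) | (L.lift h).fPoly = g} ≤
        #{h : Equiv.Perm (Fin n) | (T 1 - 1 : ℤ[T;T⁻¹]) ^ 3 ∣ (L.lift h).fPoly - g} := by
    intro n N L g
    refine Finset.card_le_card ?_
    intro h hh
    rw [Finset.mem_filter] at hh ⊢
    exact ⟨hh.1, by rw [hh.2, sub_self]; exact dvd_zero _⟩
  refine ⟨fun n N L => ⟨card_pairs L, fun h => ?_, fun g => ?_⟩, fun m g => ?_⟩
  · rw [Layered.lift_eq]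
    exact ⟨by convert Pool.Agent.R811.Cross.isClosed _ _, Pool.Agent.R811.Cross.isKnot _ _⟩
  · have h := pairs_poly L g
    exact ⟨h, (Nat.mul_le_mul_left _ (Nat.pow_le_pow_left (hsub n N L g) 4)).trans h⟩
  · have h := petal_count m g
    exact ⟨h, (Nat.mul_le_mul_left _ (Nat.pow_le_pow_left (hsub _ _ _ g) 4)).trans h⟩

end Pool.Agent.Results.MP_42db45_gt.RandomHeights
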