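import Pool.Agent.R811.Cross.Closed
import Pool.Agent.V8H81.Rnd.General
import Pool.Agent.V8H81.Urp.Gen

/-!
# Uniform random polygons

Diagrams (starting library `Pool.Agent.H891R2.Jones.Diagram`): `Diagram P` (oriented link diagrams with marked
points `P`), `Diagram.IsClosed` (the pieces fit together to closed oriented curves), `Diagram.fPoly` (the
normalised bracket `(-A^{-3})^{w(D)} ⟨D⟩`, a Laurent polynomial in `A = T 1`).
`Pool.Agent.TH561.PK.Defs` (starting library): `IsKnot D` (all marked points are on one curve).

A closed polygon in space with `n` vertices is given by the `3 n` coordinates `V (a, i)` of its vertices `a`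
(`a : Fin n`, `i : Fin 3`); the edge `a` runs from the vertex `a` to the vertex `a + 1` modulo `n`.

`Pool.Agent.V8H81.Urp.Vol`: `shade V a = (V (a, 0), V (a, 1))`: the projection of the polygon to the plane;
`height V a = V (a, 2)`.

`Pool.Agent.V8H81.Urp.Defs`, for a closed polygon `P` in the plane and heights `z` of its vertices:

* `par P a b`: the parameter of the intersection point of the line through the edge `a` with the line through the
  edge `b` (`0` is the point `P a`, `1` is the point `P (a + 1)`);
* `Cross P a b`: the edges `a` and `b` cross in interior points of both;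
* `General P`: no three vertices of `P` are on a line, and no three edges cross in one point;
* `hgt P z a b`: the height of the edge `a` over its crossing with the edge `b`;
* `lift P h z`: the diagram of the polygon with the vertices `(P a, z a)`: the passages through the
  crossings are numbered along the polygon (edge by edge, and on every edge by `par`), they are the marked points;
  at a crossing the edge with the smaller height is the lower one.

Proof.  Replace the cube by the points `u + k` with a fixed offset `u` and integer vectors `k` with
coordinates in `{0, …, H - 1}`.  Some vertices, of two kinds, may move vertically: at such a vertex `i` we look for crossings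
of the edge `i` with an edge `j` from a second half of the polygon such that for the height of `i` near a certain
threshold only this crossing changes; then we may reflect the height at the threshold.  These reflections
preserve the uniform distribution and generate cubes of crossing changes of many crossings, which are interlaced in
pairs, so that the results on crossing changes for one shadow (`Pool.Agent.R811.Cross`) bound the number of
the polygons with a given second moment (second derivative at `A = 1`); `Pool.Agent.V8H81.Urp.Count`.  The second
moment method shows that for most polygons there are about `n ^ (2/5)` such pairs (`Pool.Agent.V8H81.Urp.Main`).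
-/

set_option autoImplicit false

namespace Pool.Agent.Results.MP_42db45_gt.UniformRandomPolygons

open MeasureTheory LaurentPolynomial Pool.Agent.H891R2.Jones Pool.Agent.V8H81.Urp

/-- Uniform random polygons in the cube: the `n` vertices are independent and uniformly distributed in
`[0, 1] ^ 3`, i.e. the `3 n` coordinates are uniformly distributed in `[0, 1] ^ (3 n)`.

* Almost all of these polygons are in general position, and the edges which cross in the projection have different
  heights there.  The diagrams of all the polygons in general position are closed oriented diagrams of knots.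
* There is a constant `C` such that for all `n` and for every Laurent polynomial `g`, for instance for `g = 1`,
  the probability that the `f`-polynomial of the random polygon is equal to `g`, or only agrees with `g` up to terms of
  order `3` at `A = 1`, is at most `C * n ^ (-1/10)`. -/
theorem result :
    (∀ (n : ℕ) [NeZero n], 2 < n → ∀ᵐ V : Fin n × Fin 3 → ℝ, General (shade V) ∧
      ∀ a b, Cross (shade V) a b → hgt (shade V) (height V) a b ≠ hgt (shade V) (height V) b a) ∧
    (∀ (n : ℕ) [NeZero n] (P : Fin n → ℝ × ℝ) (h : General P) (z : Fin n → ℝ),
      (lift P h z).IsClosed ∧ Pool.Agent.TH561.PK.IsKnot (lift P h z)) ∧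
    ∃ C : ℝ, ∀ (n : ℕ) [NeZero n] (g : ℤ[T;T⁻¹]),
      volume (Set.Icc 0 1 ∩ {V : Fin n × Fin 3 → ℝ | ∃ h : General (shade V),
        (T 1 - 1 : ℤ[T;T⁻¹]) ^ 3 ∣ (lift (shade V) h (height V)).fPoly - g}) ≤
          ENNReal.ofReal (C * (n : ℝ) ^ (-(1 / 10) : ℝ)) ∧
      volume (Set.Icc 0 1 ∩ {V : Fin n × Fin 3 → ℝ | ∃ h : General (shade V),
        (lift (shade V) h (height V)).fPoly = g}) ≤
          ENNReal.ofReal (C * (n : ℝ) ^ (-(1 / 10) : ℝ)) := by
  refine ⟨fun n _ hn => ae_general hn, fun n _ P h z => ?_, 2 * C0 + 2, fun n _ g => ?_⟩
  · rw [lift_eq]
    exact ⟨by convert Pool.Agent.R811.Cross.isClosed _ _, Pool.Agent.R811.Cross.isKnot _ _⟩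
  · have hae : (Set.Icc (0 : Fin n × Fin 3 → ℝ) 1 : Set (Fin n × Fin 3 → ℝ)) =ᵐ[volume]
        cube (Fin n × Fin 3) 1 := by
      rw [cube_eq]
      exact (Measure.univ_pi_Ico_ae_eq_Icc (μ := fun _ : Fin n × Fin 3 => (volume : Measure ℝ))
        (f := fun _ => (0:ℝ)) (g := fun _ => (1:ℝ))).symm
    have key : ∀ S : Set (Fin n × Fin 3 → ℝ), S ⊆ EV n (fun f => Pool.Agent.H832R3.VJ.moment 2 f =
        Pool.Agent.H832R3.VJ.moment 2 g) → volume (Set.Icc 0 1 ∩ S) ≤
          ENNReal.ofReal ((2 * C0 + 2) * (n : ℝ) ^ (-(1 / 10) : ℝ)) := by
      intro S hS
      refine le_trans ?_ (vol_moment (n := n) (Pool.Agent.H832R3.VJ.moment 2 g))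
      calc volume (Set.Icc 0 1 ∩ S) ≤ volume (Set.Icc 0 1 ∩ EV n (fun f => Pool.Agent.H832R3.VJ.moment 2 f =
            Pool.Agent.H832R3.VJ.moment 2 g)) := measure_mono (Set.inter_subset_inter_right _ hS)
        _ = volume (cube (Fin n × Fin 3) 1 ∩ EV n (fun f => Pool.Agent.H832R3.VJ.moment 2 f =
            Pool.Agent.H832R3.VJ.moment 2 g)) := measure_congr (hae.inter (Filter.EventuallyEq.refl _ _))
        _ = _ := by rw [Set.inter_comm]
    refine ⟨key _ ?_, key _ ?_⟩
    · rintro V ⟨h, hV⟩
      exact ⟨h, Pool.Agent.V8H81.Rnd.sub_moment hV⟩
    · rintro V ⟨h, hV⟩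
      exact ⟨h, by rw [hV]⟩

end Pool.Agent.Results.MP_42db45_gt.UniformRandomPolygons
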