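import Pool.Agent.V8H83.WD.Final

/-!
# The Jones polynomials of Whitehead doubles at the fifth roots of unity

Let `ζ` be a primitive fifth root of unity.  For every knot `K`, given as the closure of a braid word `w` on
`m` strands, and every pattern `O` of wrapping number (at most) two, let `sat m w O` be the diagram of the
satellite of `K` with framing zero: the 2-cable of the braid word, `-writhe` full twists on the two strands
of the cable and the pattern `O`.  Then the values at `A = ζ` of the normalised brackets satisfy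

  `f (sat m w O) - f (O closed) = γ_O * (f K - 1)`

with a number `γ_O` which depends only on the pattern.  For the (untwisted) Whitehead doubles with positive
or negative clasp `γ = ζ⁻¹ - ζ⁻²` or `γ = ζ - ζ²`, of absolute value `|1 - ζ| > 1`.  Hence the Whitehead
doubles, and all iterated Whitehead doubles, of every knot with `f_K(ζ) ≠ 1` have `f ≠ 1` (and pairwise
different `f`).
-/

set_option autoImplicit false

namespace Pool.Agent.Results.MP_42db45_gt.WhiteheadDoubles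

open Pool.Agent.H891R2.Jones Pool.Agent.W639.RB Pool.Agent.V8H83.WD LaurentPolynomial

theorem result (ζ : ℂ) (h0 : ζ ≠ 0) (hζ : 1 + ζ + ζ ^ 2 + ζ ^ 3 + ζ ^ 4 = 0) :
    (∀ (m : ℕ) (w : List (Bool × ℕ)), KnotWord m w → ∀ O : Outer 2,
      (O.close.IsClosed → (sat m w O).IsClosed) ∧
      (sat m w O).writhe = O.close.writhe + 2 * (clos m w).writhe ∧
      evz ζ h0 (sat m w O).fPoly - evz ζ h0 O.close.fPoly =
        (evz ζ h0 O.close.fPoly - evz ζ h0 (cutF O) / (-ζ ^ 2 - ζ ^ 3)) *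
          (evz ζ h0 (clos m w).fPoly - 1)) ∧
    (∀ ε : Bool, (clasp ε).close.IsClosed ∧ (clasp ε).close.fPoly = 1) ∧
    (∀ (m : ℕ) (w : List (Bool × ℕ)), KnotWord m w → ∀ ε : Bool,
      evz ζ h0 (sat m w (clasp ε)).fPoly - 1 =
        (if ε then ζ⁻¹ - ζ⁻¹ ^ 2 else ζ - ζ ^ 2) * (evz ζ h0 (clos m w).fPoly - 1) ∧
      (evz ζ h0 (clos m w).fPoly ≠ 1 → (sat m w (clasp ε)).fPoly ≠ 1)) ∧
    (∀ (M : ℕ → ℕ) (W : ℕ → List (Bool × ℕ)) (ε : ℕ → Bool) (n : ℕ),
      (∀ i, i ≤ n → KnotWord (M i) (W i)) →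
      (∀ i, i < n → (clos (M (i+1)) (W (i+1))).fPoly = (sat (M i) (W i) (clasp (ε i))).fPoly) →
      (∀ i, i ≤ n → ‖evz ζ h0 (clos (M i) (W i)).fPoly - 1‖ =
        ‖1 - ζ‖ ^ i * ‖evz ζ h0 (clos (M 0) (W 0)).fPoly - 1‖) ∧
      (evz ζ h0 (clos (M 0) (W 0)).fPoly ≠ 1 →
        (∀ i, i ≤ n → (clos (M i) (W i)).fPoly ≠ 1) ∧
        ∀ i j, i < j → j ≤ n → (clos (M i) (W i)).fPoly ≠ (clos (M j) (W j)).fPoly)) ∧
    1 < ‖1 - ζ‖ ∧
    (∀ n : ℕ, n % 2 = 1 → n % 5 ≠ 1 → n % 5 ≠ 4 →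
      KnotWord 2 (List.replicate n (true, 0)) ∧
      evz ζ h0 (clos 2 (List.replicate n (true, 0))).fPoly ≠ 1) := by
  refine ⟨fun m w hw O => ⟨dbl_closed hw.1 O w hw.2.1, ?_, ?_⟩, fun ε => ⟨clasp_closed ε, clasp_fPoly ε⟩,
    fun m w hw ε => ?_, fun M W ε n hk hs => ?_, one_lt_norm hζ,
    fun n h1 h2 h3 => ⟨torus_word n h1, torus_ne h0 hζ n h1 h2 h3⟩⟩
  · rw [close_writhe, close_writhe, (draw_dbl hw.1 O w hw.2.1).1, Pool.Agent.N569.TW.writhe_eq w hw.2.1]
  · rw [sat_main hw.1 h0 hζ rfl O w hw.2.1 hw.2.2]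
    ring
  · have h1 := white h0 hζ w hw ε
    refine ⟨h1, fun h2 h3 => ?_⟩
    rw [h3, map_one, sub_self] at h1
    have h4 : gam ζ ε ≠ 0 := by
      intro h5
      have h6 := norm_gam h0 hζ ε
      rw [h5, norm_zero] at h6
      have := one_lt_norm hζ
      rw [← h6] at this
      norm_num at this
    rcases mul_eq_zero.1 h1.symm with h | h
    · exact h4 h
    · exact h2 (sub_eq_zero.1 h)
  · have key : ∀ i, i ≤ n → ‖evz ζ h0 (clos (M i) (W i)).fPoly - 1‖ =
        ‖1 - ζ‖ ^ i * ‖evz ζ h0 (clos (M 0) (W 0)).fPoly - 1‖ := fun i hi =>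
      iter h0 hζ M W ε i (fun j hj => hk j (by omega)) (fun j hj => hs j (by omega))
    have hg := one_lt_norm hζ
    refine ⟨key, fun hne => ⟨fun i hi h1 => ?_, fun i j hij hj h1 => ?_⟩⟩
    · have h2 := key i hi
      rw [h1, map_one, sub_self, norm_zero] at h2
      have h3 : 0 < ‖1 - ζ‖ ^ i * ‖evz ζ h0 (clos (M 0) (W 0)).fPoly - 1‖ :=
        mul_pos (pow_pos (by linarith) _) (norm_pos_iff.2 (sub_ne_zero.2 hne))
      rw [← h2] at h3
      exact lt_irrefl _ h3
    · have h2 := key i (by omega)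
      have h3 := key j hj
      rw [h1, h3] at h2
      have h4 : 0 < ‖evz ζ h0 (clos (M 0) (W 0)).fPoly - 1‖ := norm_pos_iff.2 (sub_ne_zero.2 hne)
      have h5 := mul_right_cancel₀ h4.ne' h2
      have h6 := pow_right_injective₀ (by linarith) hg.ne' h5
      omega

end Pool.Agent.Results.MP_42db45_gt.WhiteheadDoubles
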